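import Pool.Agent.H93.EB.Basic
import Pool.Agent.H28.NW.Targets

/-!
# MP_c59857_nt, row BLU of nw_modules: a logarithmic sum over a window is bounded by the means
over the blocks
-/

set_option autoImplicit false

open Finset Pool.Agent.H6.N4D Pool.Agent.H93

namespace Pool.Agent.H36.NW.BLU

open Pool.Agent.H28.NW

lemma range_le_hs (G : ℕ → ℝ) (b : ℝ) (N : ℕ) (hG : ∀ n, 0 ≤ G n)
    (hGb : ∀ n, G n ≤ b * (1 / (n : ℝ))) : ∑ k ∈ range N, G k ≤ b * EB.hs N := by
  have h0 : G 0 = 0 := by
    have h1 := hGb 0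
    have h2 := hG 0
    simp only [Nat.cast_zero, div_zero, mul_zero] at h1
    linarith
  have h1 : ∑ k ∈ range N, G k ≤ ∑ k ∈ range (N + 1), G k :=
    sum_le_sum_of_subset_of_nonneg (range_subset_range.2 (by omega)) fun n _ _ => hG n
  have h2 : ∑ k ∈ range (N + 1), G k = ∑ k ∈ Icc 1 N, G k := by
    rw [← sum_subset (s₁ := Icc 1 N) (s₂ := range (N + 1))]
    · intro n hn
      rw [mem_Icc] at hn
      exact mem_range.2 (by omega)
    · intro n hn hn2
      rw [mem_range] at hn
      rw [mem_Icc] at hn2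
      have : n = 0 := by omega
      rw [this, h0]
  rw [h2] at h1
  refine h1.trans ?_
  unfold EB.hs
  rw [mul_sum]
  exact sum_le_sum fun n _ => hGb n

lemma block_le (s : Finset ℕ) (G : ℕ → ℝ) (N q : ℕ) (hN : 1 ≤ N) (hG : ∀ n, 0 ≤ G n) :
    ∑ n ∈ s.filter (fun n => n / N = q), G n ≤ ∑ k ∈ range N, G (q * N + k) := by
  have h1 : ∑ k ∈ range N, G (q * N + k) = ∑ n ∈ (range N).image (fun k => q * N + k), G n := by
    rw [sum_image]
    intro x _ y _ hxy
    simp only at hxy
    omega
  rw [h1]
  apply sum_le_sum_of_subset_of_nonneg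
  · intro n hn
    rw [mem_filter] at hn
    rw [mem_image]
    refine ⟨n % N, mem_range.2 (Nat.mod_lt _ (by omega)), ?_⟩
    have h2 := Nat.div_add_mod n N
    rw [hn.2, mul_comm] at h2
    exact h2
  · intro n _ _
    exact hG n

theorem pf_BLU : W_BLU := by
  intro X N F b hN hX hb hF
  have hlogN : 0 ≤ Real.log N := Real.log_natCast_nonneg N
  have hN0 : (0 : ℝ) < N := by exact_mod_cast hN
  obtain ⟨G, hG⟩ : ∃ G : ℕ → ℝ, G = fun n => F n / n := ⟨_, rfl⟩
  have hGn : ∀ n, G n = F n / n := fun n => by rw [hG]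
  have hG0 : ∀ n, 0 ≤ G n := fun n => by rw [hGn]; exact div_nonneg (hF n).1 (by positivity)
  have hGb : ∀ n, G n ≤ b * (1 / (n : ℝ)) := fun n => by
    rw [hGn, mul_one_div]
    exact div_le_div_of_nonneg_right (hF n).2 (by positivity)
  have hw : wlg X F = ∑ n ∈ Icc X.lo X.hi, G n := by
    unfold wlg
    exact sum_congr rfl fun n _ => (hGn n).symm
  obtain ⟨A, hA⟩ : ∃ A, A = Icc (max 1 (X.lo / N)) (X.hi / N - 1) := ⟨_, rfl⟩
  obtain ⟨q, hq⟩ : ∃ q, q = X.hi / N := ⟨_, rfl⟩
  have hpt : ∀ n ∈ Icc X.lo X.hi, G n ≤ (if n < N then G n else 0) +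
      (if n / N = q then G n else 0) + (if n / N ∈ A then G n else 0) := by
    intro n hn
    rw [mem_Icc] at hn
    have h0 := hG0 n
    by_cases h1 : n < N
    · rw [if_pos h1]
      split_ifs <;> linarith
    · by_cases h2 : n / N = q
      · rw [if_pos h2]
        split_ifs <;> linarith
      · have h3 : n / N ∈ A := by
          rw [hA, mem_Icc]
          have h4 : 1 ≤ n / N := (Nat.one_le_div_iff (by omega)).2 (by omega)
          have h5 : X.lo / N ≤ n / N := Nat.div_le_div_right hn.1
          have h6 : n / N ≤ X.hi / N := Nat.div_le_div_right hn.2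
          rw [hq] at h2
          exact ⟨max_le h4 h5, by omega⟩
        rw [if_pos h3]
        split_ifs <;> linarith
  have hs1 : ∑ n ∈ Icc X.lo X.hi, (if n < N then G n else 0) ≤ b * (1 + Real.log N) := by
    rw [← sum_filter]
    calc ∑ n ∈ (Icc X.lo X.hi).filter (fun n => n < N), G n ≤ ∑ n ∈ range N, G n := by
          apply sum_le_sum_of_subset_of_nonneg
          · intro n hn
            exact mem_range.2 (mem_filter.1 hn).2
          · intro n _ _; exact hG0 n
      _ ≤ b * EB.hs N := range_le_hs G b N hG0 hGb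
      _ ≤ b * (1 + Real.log N) := mul_le_mul_of_nonneg_left (EB.hs_le N) hb
  have hs2 : ∑ n ∈ Icc X.lo X.hi, (if n / N = q then G n else 0) ≤ b * (1 + Real.log N) := by
    rw [← sum_filter]
    refine (block_le _ G N q hN hG0).trans ?_
    rcases Nat.eq_zero_or_pos q with h0 | h0
    · rw [h0]
      simp only [zero_mul, zero_add]
      exact (range_le_hs G b N hG0 hGb).trans (mul_le_mul_of_nonneg_left (EB.hs_le N) hb)
    · calc ∑ k ∈ range N, G (q * N + k) ≤ ∑ k ∈ range N, b / N := by
            apply sum_le_sum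
            intro k _
            rw [hGn]
            apply div_le_div₀ hb (hF _).2 hN0
            push_cast
            have e1 : (0 : ℝ) ≤ k := by positivity
            have e2 : (1 : ℝ) ≤ q := by exact_mod_cast h0
            have e3 : 1 * (N : ℝ) ≤ q * N := mul_le_mul_of_nonneg_right e2 hN0.le
            linarith
        _ = b := by
            rw [sum_const, card_range, nsmul_eq_mul]
            field_simp
        _ ≤ b * (1 + Real.log N) := by
            have := mul_nonneg hb hlogN
            linarith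
  have hs3 : ∑ n ∈ Icc X.lo X.hi, (if n / N ∈ A then G n else 0) ≤
      ∑ i ∈ A, 1 / (i : ℝ) * ((∑ k ∈ range N, F (i * N + k)) / N) := by
    rw [← sum_filter]
    have h1 : ∑ n ∈ (Icc X.lo X.hi).filter (fun n => n / N ∈ A), G n =
        ∑ i ∈ A, ∑ n ∈ ((Icc X.lo X.hi).filter (fun n => n / N ∈ A)).filter
          (fun n => n / N = i), G n := by
      rw [sum_fiberwise_of_maps_to]
      intro n hn
      exact (mem_filter.1 hn).2
    rw [h1]
    apply sum_le_sum
    intro i hi
    refine (block_le _ G N i hN hG0).trans ?_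
    have hi1 : 1 ≤ i := by
      rw [hA, mem_Icc] at hi
      exact (le_max_left _ _).trans hi.1
    have hi0 : (0 : ℝ) < i := by exact_mod_cast hi1
    have e0 : 1 / (i : ℝ) * ((∑ k ∈ range N, F (i * N + k)) / N) =
        ∑ k ∈ range N, F (i * N + k) / (i * N) := by
      rw [sum_div, mul_sum]
      apply sum_congr rfl
      intro k _
      field_simp
    rw [e0]
    apply sum_le_sum
    intro k _
    rw [hGn]
    apply div_le_div_of_nonneg_left (hF _).1 (by positivity)
    push_cast
    have e1 : (0 : ℝ) ≤ k := by positivity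
    linarith
  have hsum := sum_le_sum hpt
  rw [sum_add_distrib, sum_add_distrib] at hsum
  rw [hw, ← hA]
  have h9 : 0 ≤ b * (1 + Real.log N) := by positivity
  linarith

end Pool.Agent.H36.NW.BLU
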