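import Pool.Agent.H3.BES.SWT
import Pool.Agent.H28.NW.Targets

/-!
# Row GENB of nw_modules (window form of row GEN of clu_modules, helper46): sliding windows, frequencies with few bad quadruples
-/

set_option autoImplicit false

open Finset Pool.Agent.H6.N4D Pool.Agent.H93.EB Pool.Agent.H3.BES

namespace Pool.Agent.H36.NW.GENB

open Pool.Agent.H28.NW
/-- the mean of the logarithmic sums of the shifts -/
theorem avg_shift (X : Wn) (P Q : ℕ) (hPQ : P ≤ Q) (h : ℕ → ℝ) {c : ℝ} (hc : ∀ n, |h n| ≤ c) :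
    |(2 : ℝ) ^ P / 2 ^ Q * ∑ k ∈ range (2 ^ Q / 2 ^ P), wlg X (fun u => h (u + k * 2 ^ P)) -
      wlg X h| ≤ 3 * c * hs (2 ^ Q) := by
  have hc0 : 0 ≤ c := (abs_nonneg _).trans (hc 0)
  have hdiv : 2 ^ Q / 2 ^ P = 2 ^ (Q - P) := Nat.pow_div hPQ (by norm_num)
  have h2 : (2 : ℝ) ^ Q = 2 ^ P * 2 ^ (Q - P) := by
    rw [← pow_add]
    congr 1
    omega
  have hPpos : (0 : ℝ) < 2 ^ P := by positivity
  have hQpos : (0 : ℝ) < 2 ^ Q := by positivity
  have hone : (2 : ℝ) ^ P / 2 ^ Q * 2 ^ (Q - P) = 1 := by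
    rw [h2]
    have : (0 : ℝ) < 2 ^ (Q - P) := by positivity
    field_simp
  have hterm : ∀ k ∈ range (2 ^ Q / 2 ^ P),
      |wlg X (fun u => h (u + k * 2 ^ P)) - wlg X h| ≤ 3 * c * hs (2 ^ Q) := by
    intro k hk
    rw [Finset.mem_range, hdiv] at hk
    refine (wlg_shift X (k * 2 ^ P) h hc).trans ?_
    refine mul_le_mul_of_nonneg_left (hs_mono ?_) (by positivity)
    have h3 : 2 ^ Q = 2 ^ (Q - P) * 2 ^ P := by
      rw [← pow_add]
      congr 1
      omega
    rw [h3]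
    exact Nat.mul_le_mul_right _ hk.le
  have e : (2 : ℝ) ^ P / 2 ^ Q * ∑ k ∈ range (2 ^ Q / 2 ^ P), wlg X (fun u => h (u + k * 2 ^ P)) -
      wlg X h = (2 : ℝ) ^ P / 2 ^ Q * ∑ k ∈ range (2 ^ Q / 2 ^ P),
        (wlg X (fun u => h (u + k * 2 ^ P)) - wlg X h) := by
    rw [Finset.sum_sub_distrib, Finset.sum_const, Finset.card_range, hdiv, nsmul_eq_mul]
    push_cast
    linear_combination (wlg X h) * hone
  rw [e, abs_mul, abs_of_pos (div_pos hPpos hQpos)]
  calc (2 : ℝ) ^ P / 2 ^ Q * |∑ k ∈ range (2 ^ Q / 2 ^ P),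
        (wlg X (fun u => h (u + k * 2 ^ P)) - wlg X h)|
      ≤ (2 : ℝ) ^ P / 2 ^ Q * ∑ _k ∈ range (2 ^ Q / 2 ^ P), 3 * c * hs (2 ^ Q) := by
        refine mul_le_mul_of_nonneg_left ?_ (div_pos hPpos hQpos).le
        exact (Finset.abs_sum_le_sum_abs _ _).trans (Finset.sum_le_sum hterm)
    _ = 3 * c * hs (2 ^ Q) := by
        rw [Finset.sum_const, Finset.card_range, hdiv, nsmul_eq_mul]
        push_cast
        linear_combination (3 * c * hs (2 ^ Q)) * hone

/-- the multiples of `q` in a window -/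
theorem card_mul (q n N : ℕ) (hq : 1 ≤ q) :
    (((Ioc n (n + N)).filter fun x => q ∣ x).card : ℝ) ≤ (N : ℝ) / q + 1 := by
  have hq0 : (0 : ℝ) < q := by exact_mod_cast hq
  have h1 : ((Ioc 0 n).filter fun x => q ∣ x).card +
      ((Ioc n (n + N)).filter fun x => q ∣ x).card =
      ((Ioc 0 (n + N)).filter fun x => q ∣ x).card := by
    rw [← Finset.card_union_of_disjoint, ← Finset.filter_union]
    · congr 2
      ext x
      simp only [Finset.mem_union, Finset.mem_Ioc]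
      omega
    · rw [Finset.disjoint_left]
      intro x hx hy
      simp only [Finset.mem_filter, Finset.mem_Ioc] at hx hy
      omega
  rw [Nat.Ioc_filter_dvd_card_eq_div, Nat.Ioc_filter_dvd_card_eq_div] at h1
  have h2 : (((n + N) / q : ℕ) : ℝ) ≤ ((n : ℝ) + N) / q := by
    have := Nat.cast_div_le (α := ℝ) (m := n + N) (n := q)
    push_cast at this
    exact this
  have h3 : (n : ℝ) / q - 1 ≤ ((n / q : ℕ) : ℝ) := by
    have h4 : n < (n / q + 1) * q := by
      have := Nat.lt_div_mul_add (a := n) (b := q) (by omega)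
      calc n < n / q * q + q := this
        _ = (n / q + 1) * q := by ring
    have h5 : (n : ℝ) < (((n / q : ℕ) : ℝ) + 1) * q := by exact_mod_cast h4
    have h6 : (n : ℝ) / q < ((n / q : ℕ) : ℝ) + 1 := by
      rw [div_lt_iff₀ hq0]
      exact h5
    linarith
  have h4 : (((n / q : ℕ) : ℝ)) + (((Ioc n (n + N)).filter fun x => q ∣ x).card : ℝ) =
      (((n + N) / q : ℕ) : ℝ) := by exact_mod_cast h1
  have h5 : ((n : ℝ) + N) / q = (n : ℝ) / q + (N : ℝ) / q := add_div _ _ _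
  linarith

theorem zz_le (lam : ℕ → ℝ) (hlam : ∀ n, |lam n| ≤ 1) (q N n : ℕ) (hq : 1 ≤ q) (hqN : q ≤ N)
    (α : ℝ) (g : ℕ → ℂ) (hg : BV N n g) : zz lam q N n α g ≤ 3 := by
  have hN : 0 < N := by omega
  have hN0 : (0 : ℝ) < N := by exact_mod_cast hN
  have hq0 : (0 : ℝ) < q := by exact_mod_cast hq
  unfold zz
  rw [norm_div, Complex.norm_natCast, div_le_iff₀ hN0]
  have h1 : ∀ x ∈ Ioc n (n + N), ‖(lam x : ℂ) * (D q x : ℂ) * ee (-(α * x)) * g x‖ ≤
      (if q ∣ x then (q : ℝ) else 0) + 1 := by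
    intro x hx
    rw [norm_mul, norm_mul, norm_mul, norm_ee, mul_one, Complex.norm_real, Complex.norm_real,
      Real.norm_eq_abs, Real.norm_eq_abs]
    have h2 : |D q x| ≤ (if q ∣ x then (q : ℝ) else 0) + 1 := by
      unfold D
      refine (abs_sub _ _).trans ?_
      rw [abs_one]
      have : |(if q ∣ x then (q : ℝ) else 0)| = if q ∣ x then (q : ℝ) else 0 := by
        apply abs_of_nonneg
        split_ifs
        · exact hq0.le
        · exact le_refl _
      rw [this]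
    calc |lam x| * |D q x| * ‖g x‖ ≤ 1 * |D q x| * 1 := by
          refine mul_le_mul ?_ (hg.bd x hx) (norm_nonneg _) (by positivity)
          exact mul_le_mul_of_nonneg_right (hlam x) (abs_nonneg _)
      _ = |D q x| := by ring
      _ ≤ _ := h2
  refine (norm_sum_le _ _).trans ((Finset.sum_le_sum h1).trans ?_)
  rw [Finset.sum_add_distrib, ← Finset.sum_filter, Finset.sum_const, Finset.sum_const,
    nsmul_eq_mul, nsmul_eq_mul, Nat.card_Ioc]
  have h3 := card_mul q n N hq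
  have h4 : (((Ioc n (n + N)).filter fun x => q ∣ x).card : ℝ) * q ≤ ((N : ℝ) / q + 1) * q :=
    mul_le_mul_of_nonneg_right h3 hq0.le
  have h5 : ((N : ℝ) / q + 1) * q = N + q := by field_simp
  have h6 : (q : ℝ) ≤ N := by exact_mod_cast hqN
  have h7 : ((n + N - n : ℕ) : ℝ) = N := by
    congr 1
    omega
  rw [h7]
  linarith

theorem Phi_bd (W : ℝ) (lam : ℕ → ℝ) (hlam : ∀ n, |lam n| ≤ 1) (m : ℕ)
    (hW : ∑ q ∈ QQ m, 1 / (q : ℝ) ≤ W) (α : ℕ → ℝ) (g : ℕ → ℕ → ℂ) (n : ℕ)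
    (hg : ∀ q ∈ QQ m, BV (2 ^ m) n (g q)) :
    0 ≤ Pool.Agent.H3.BES.Phi lam m α g n ∧ Pool.Agent.H3.BES.Phi lam m α g n ≤ 9 * W := by
  have hz0 : ∀ q, 0 ≤ zz lam q (2 ^ m) n (α q) (g q) := fun q => norm_nonneg _
  constructor
  · unfold Pool.Agent.H3.BES.Phi
    exact Finset.sum_nonneg fun q _ => by positivity
  · unfold Pool.Agent.H3.BES.Phi
    calc ∑ q ∈ QQ m, 1 / (q : ℝ) * zz lam q (2 ^ m) n (α q) (g q) ^ 2
        ≤ ∑ q ∈ QQ m, 1 / (q : ℝ) * 9 := by
          refine Finset.sum_le_sum fun q hq => mul_le_mul_of_nonneg_left ?_ (by positivity)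
          unfold QQ at hq
          rw [Finset.mem_filter, Finset.mem_Ioc] at hq
          have hq1 : 1 ≤ q := hq.2.one_lt.le
          have hqm : q ≤ 2 ^ m :=
            hq.1.2.trans (Nat.pow_le_pow_right (by norm_num) (Nat.div_le_self _ _))
          have h3 := zz_le lam hlam q (2 ^ m) n hq1 hqm (α q) (g q) (hg q (by
            unfold QQ
            rw [Finset.mem_filter, Finset.mem_Ioc]
            exact hq))
          have := hz0 q
          nlinarith
      _ = 9 * ∑ q ∈ QQ m, 1 / (q : ℝ) := by rw [← Finset.sum_mul, mul_comm]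
      _ ≤ 9 * W := by linarith

theorem err_nonneg (lam : ℕ → ℝ) (R s : ℕ) (b : ℕ → ℕ → ℂ) (β : ℕ → ℕ → ℝ) (n : ℕ) :
    0 ≤ err lam R s b β n := by
  unfold err
  positivity

/-- the trivial bound -/
theorem err_zero (lam : ℕ → ℝ) (hlam : ∀ n, |lam n| ≤ 1) (R s : ℕ) (b : ℕ → ℕ → ℂ)
    (β : ℕ → ℕ → ℝ) (n : ℕ) (hb : ∀ r, b n r = 0) : err lam R s b β n ≤ 1 := by
  unfold err
  rw [div_le_one (by positivity)]
  calc ∑ x ∈ Ioc n (n + 2 ^ s), ‖(lam x : ℂ) - ∑ r ∈ range R, b n r * ee (β n r * x)‖ ^ 2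
      ≤ ∑ _x ∈ Ioc n (n + 2 ^ s), (1 : ℝ) := by
        refine Finset.sum_le_sum fun x _ => ?_
        simp only [hb, zero_mul, Finset.sum_const_zero, sub_zero]
        rw [Complex.norm_real, Real.norm_eq_abs]
        have := hlam x
        have := abs_nonneg (lam x)
        nlinarith
    _ = 2 ^ s := by simp

theorem rp (t s : ℕ) (h : 2400 * t ≤ s) :
    ((2 : ℝ) ^ (s / 2)) ^ (-(1 / 5) : ℝ) ≤ (1 / 2) ^ (240 * t) := by
  have h1 : (2 : ℝ) ^ (1200 * t) ≤ 2 ^ (s / 2) :=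
    pow_le_pow_right₀ (by norm_num) (by omega)
  have h2 : ((2 : ℝ) ^ (s / 2)) ^ (-(1 / 5) : ℝ) ≤ ((2 : ℝ) ^ (1200 * t)) ^ (-(1 / 5) : ℝ) :=
    Real.rpow_le_rpow_of_nonpos (by positivity) h1 (by norm_num)
  refine h2.trans (le_of_eq ?_)
  have h3 : (2 : ℝ) ^ (1200 * t) = (2 ^ (240 * t)) ^ 5 := by
    rw [← pow_mul]
    congr 1
    ring
  have h4 : (-(1 / 5) : ℝ) = -(((5 : ℕ) : ℝ)⁻¹) := by norm_num
  rw [h3, h4, Real.rpow_neg (by positivity), Real.pow_rpow_inv_natCast (by positivity)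
    (by norm_num), one_div, inv_pow]

/-- the number `hs (2 ^ L)` -/
theorem hs_two (L : ℕ) : hs (2 ^ L) ≤ 1 + L := by
  refine (hs_le _).trans ?_
  push_cast
  rw [Real.log_pow]
  have h1 : Real.log 2 ≤ 1 := by
    have := Real.log_le_sub_one_of_pos (x := 2) (by norm_num)
    linarith
  have h2 : (0 : ℝ) ≤ L := Nat.cast_nonneg _
  nlinarith

theorem main (h1 : T_ONE) (h2 : T_MSU) : W_GENB := by
  classical
  obtain ⟨W, hW⟩ := h2
  have hW0 : 0 ≤ W := (Finset.sum_nonneg fun q _ => by positivity).trans (hW 0)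
  obtain ⟨C₁, hC₁, hone⟩ := h1 W
  refine ⟨2400, 54 * W + 14, by norm_num, by positivity, ?_⟩
  intro R
  obtain ⟨t₀, ht₀⟩ := pow_unbounded_of_one_lt (2 * C₁ * (1 + R)) (one_lt_two)
  refine ⟨2400 * (t₀ + 1), ?_⟩
  intro s X K k₁ lam e m α g hs₀ hX hlam hbase hK hm0 hmi hk₁ hBV hNC
  have hlog1 : 1 ≤ X.L := hX
  have hlog0 : 0 ≤ X.L := by linarith
  obtain ⟨b, β, hb, hbase⟩ := hbase
  -- the truncated coefficients
  have hbase' : wlg X (fun n => err lam R s b β n) ≤ e * X.L := by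
    have h3 : (fun n => err lam R s b β n) = (fun n => (∑ m ∈ Ioc n (n + 2 ^ s),
      ‖(lam m : ℂ) - ∑ r ∈ range R, b n r * ee (β n r * m)‖ ^ 2) / ((2 ^ s : ℕ) : ℝ)) := by
      funext n
      unfold err
      push_cast
      rfl
    rw [h3]
    exact hbase
  have he0 : 0 ≤ e * X.L :=
    (wlg_nonneg fun n _ => err_nonneg lam R s b β n).trans hbase'
  rcases Nat.eq_zero_or_pos K with hK0 | hK0
  · subst hK0
    rw [Finset.range_zero, Finset.sum_empty]
    have h3 : (0 : ℝ) ≤ (1 / 2) ^ (s / 2400) * X.L := by positivity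
    have h4 : 0 ≤ (54 * W + 14) * (e * X.L) := by positivity
    have h5 : ((54 * W + 14) * e + (1 / 2) ^ (s / 2400)) * X.L +
        (54 * W + 14) * ((0 : ℕ) : ℝ) * ((k₁ : ℝ) + 1) =
        (54 * W + 14) * (e * X.L) + (1 / 2) ^ (s / 2400) * X.L := by
      push_cast
      ring
    rw [h5]
    linarith
  have hK1 : (1 : ℝ) ≤ K := by exact_mod_cast hK0
  set b' : ℕ → ℕ → ℂ := fun n r => if err lam R s b β n ≤ 1 then b n r else 0 with hb'
  have hb1 : ∀ n r, ‖b' n r‖ ≤ 1 := by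
    intro n r
    rw [hb']
    dsimp only
    split_ifs
    · exact hb n r
    · rw [norm_zero]
      exact zero_le_one
  have herr : ∀ n, err lam R s b' β n ≤ 1 ∧ err lam R s b' β n ≤ err lam R s b β n := by
    intro n
    by_cases h3 : err lam R s b β n ≤ 1
    · have h4 : err lam R s b' β n = err lam R s b β n := by
        unfold err
        have : ∀ r, b' n r = b n r := fun r => if_pos h3
        simp only [this]
      rw [h4]
      exact ⟨h3, le_refl _⟩
    · have h4 : err lam R s b' β n ≤ 1 :=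
        err_zero lam hlam R s b' β n fun r => if_neg h3
      exact ⟨h4, h4.trans (not_le.mp h3).le⟩
  have herr_abs : ∀ n, |err lam R s b' β n| ≤ 1 := by
    intro n
    rw [abs_of_nonneg (err_nonneg lam R s b' β n)]
    exact (herr n).1
  -- monotonicity of the levels
  have hmono : ∀ i, i < K → m i ≤ m (K - 1) := by
    have h3 : ∀ d i, i + d < K → m i ≤ m (i + d) := by
      intro d
      induction d with
      | zero => intro i _; exact le_refl _
      | succ d ih =>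
        intro i hi
        have h4 := ih i (by omega)
        have h5 := hmi (i + d) (by omega)
        have h6 : i + (d + 1) = i + d + 1 := rfl
        rw [h6]
        omega
    intro i hi
    have h4 := h3 (K - 1 - i) i (by omega)
    have h5 : i + (K - 1 - i) = K - 1 := by omega
    rwa [h5] at h4
  set L : ℕ := 2 * (m (K - 1) / 2) + 1 with hL
  have hmL : ∀ i, i < K → m i ≤ L := by
    intro i hi
    have := hmono i hi
    omega
  have hsL : s ≤ L := by
    have := hmono 0 hK0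
    omega
  have hLk : L ≤ k₁ + 1 := by
    have := hk₁ (K - 1) (by omega)
    omega
  have hhs : hs (2 ^ L) ≤ k₁ + 2 := by
    have h3 := hs_two L
    have h4 : (L : ℝ) ≤ k₁ + 1 := by exact_mod_cast hLk
    linarith
  have hhs0 : 0 ≤ hs (2 ^ L) := hs_nonneg _
  -- the functions of the levels
  set h : ℕ → ℕ → ℝ := fun i n => Pool.Agent.H3.BES.Phi lam (m i) (α i n) (g i n) n with hh
  have hh_abs : ∀ i ∈ range K, ∀ n, |h i n| ≤ 9 * W := by
    intro i hi n
    have h3 := Phi_bd W lam hlam (m i) (hW (m i)) (α i n) (g i n) n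
      (fun q hq => hBV i (Finset.mem_range.mp hi) n q hq)
    rw [hh]
    dsimp only
    rw [abs_of_nonneg h3.1]
    exact h3.2
  set E : ℝ := C₁ * ((K : ℝ) ^ 2 + K * R) * ((2 : ℝ) ^ (s / 2)) ^ (-(1 / 5) : ℝ) with hE
  have hineq : ∀ u : ℕ, ∑ i ∈ range K, (2 : ℝ) ^ m i / 2 ^ L *
      ∑ k ∈ range (2 ^ L / 2 ^ m i), h i (u + k * 2 ^ m i) ≤
      2 * ((2 : ℝ) ^ s / 2 ^ L *
      ∑ k ∈ range (2 ^ L / 2 ^ s), err lam R s b' β (u + k * 2 ^ s)) + E := fun u =>
    hone K s R u m α g lam b' β hK0 (by omega) hlam hW hm0 hmi hBV hNC hb1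
  have hlg := wlg_mono (X := X) fun u _ => hineq u
  rw [wlg_sum, wlg_add, wlg_const] at hlg
  have hleft : ∑ i ∈ range K, (wlg X (h i) - 3 * (9 * W) * hs (2 ^ L)) ≤
      ∑ i ∈ range K, wlg X (fun u => (2 : ℝ) ^ m i / 2 ^ L *
      ∑ k ∈ range (2 ^ L / 2 ^ m i), h i (u + k * 2 ^ m i)) := by
    refine Finset.sum_le_sum fun i hi => ?_
    rw [wlg_mul, wlg_sum]
    have h3 := avg_shift X (m i) L (hmL i (Finset.mem_range.mp hi)) (h i) (hh_abs i hi)
    have h4 := (abs_le.mp h3).1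
    linarith
  have hright : wlg X (fun u => 2 * ((2 : ℝ) ^ s / 2 ^ L *
      ∑ k ∈ range (2 ^ L / 2 ^ s), err lam R s b' β (u + k * 2 ^ s))) ≤
      2 * (e * X.L + 3 * hs (2 ^ L)) := by
    rw [wlg_mul, wlg_mul, wlg_sum]
    have h3 := avg_shift X s L hsL (fun n => err lam R s b' β n) herr_abs
    have h4 := (abs_le.mp h3).2
    have h5 : wlg X (fun n => err lam R s b' β n) ≤ wlg X (fun n => err lam R s b β n) :=
      wlg_mono fun n _ => (herr n).2
    linarith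
  have hEnd : E * wlg X (fun _ => 1) ≤ (1 / 2) ^ (s / 2400) * X.L := by
    have h3 := wlg_one_le X
    set t : ℕ := s / 2400 with ht
    have ht1 : t₀ + 1 ≤ t := by omega
    have hrp := rp t s (by omega)
    have hKt : (K : ℝ) ≤ 2 ^ t := by exact_mod_cast hK
    have h2t : (1 : ℝ) ≤ 2 ^ t := one_le_pow₀ (by norm_num)
    have hR0 : (0 : ℝ) ≤ R := Nat.cast_nonneg _
    have hKK : (K : ℝ) ^ 2 + K * R ≤ (1 + R) * (2 ^ t) ^ 2 := by
      have h4 : (K : ℝ) ^ 2 ≤ (2 ^ t) ^ 2 := pow_le_pow_left₀ (by positivity) hKt 2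
      have h5 : (K : ℝ) * R ≤ (2 ^ t) ^ 2 * R := by
        refine mul_le_mul_of_nonneg_right (hKt.trans ?_) hR0
        nlinarith
      linarith
    have hE0 : 0 ≤ E := by
      rw [hE]
      positivity
    have hE1 : E ≤ (1 / 2) ^ t / 2 := by
      have h4 : E ≤ C₁ * ((1 + R) * (2 ^ t) ^ 2) * (1 / 2) ^ (240 * t) := by
        rw [hE]
        exact mul_le_mul (mul_le_mul_of_nonneg_left hKK hC₁) hrp (by positivity) (by positivity)
      have h5 : ((1 : ℝ) / 2) ^ (240 * t) = (1 / 2) ^ t * ((1 / 2) ^ t) ^ 2 * (1 / 2) ^ t *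
          (1 / 2) ^ (236 * t) := by
        rw [← pow_mul, ← pow_add, ← pow_add, ← pow_add]
        congr 1
        ring
      have h6 : ((2 : ℝ) ^ t) ^ 2 * ((1 / 2) ^ t) ^ 2 = 1 := by
        rw [← mul_pow, ← mul_pow]
        norm_num
      have h7 : ((1 : ℝ) / 2) ^ (236 * t) ≤ 1 :=
        pow_le_one₀ (by norm_num) (by norm_num)
      have h8 : 2 * C₁ * (1 + R) * (1 / 2) ^ t ≤ 1 := by
        have h9 : (2 : ℝ) ^ t₀ ≤ 2 ^ t := pow_le_pow_right₀ (by norm_num) (by omega)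
        have h10 : 2 * C₁ * (1 + R) ≤ 2 ^ t := ht₀.le.trans h9
        have h11 : (2 : ℝ) ^ t * (1 / 2) ^ t = 1 := by
          rw [← mul_pow]
          norm_num
        calc 2 * C₁ * (1 + R) * (1 / 2) ^ t ≤ 2 ^ t * (1 / 2) ^ t :=
              mul_le_mul_of_nonneg_right h10 (by positivity)
          _ = 1 := h11
      have h9 : C₁ * ((1 + R) * (2 ^ t) ^ 2) * (1 / 2) ^ (240 * t) =
          ((1 / 2) ^ t / 2) * ((2 * C₁ * (1 + R) * (1 / 2) ^ t) * (1 / 2) ^ (236 * t)) := by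
        rw [h5]
        linear_combination C₁ * (1 + R) * (1 / 2) ^ t * (1 / 2) ^ t * (1 / 2) ^ (236 * t) * h6
      rw [h9] at h4
      refine h4.trans ?_
      have h10 : (2 * C₁ * (1 + R) * (1 / 2) ^ t) * (1 / 2) ^ (236 * t) ≤ 1 :=
        mul_le_one₀ h8 (by positivity) h7
      calc ((1 : ℝ) / 2) ^ t / 2 * ((2 * C₁ * (1 + R) * (1 / 2) ^ t) * (1 / 2) ^ (236 * t))
          ≤ (1 / 2) ^ t / 2 * 1 := mul_le_mul_of_nonneg_left h10 (by positivity)
        _ = (1 / 2) ^ t / 2 := mul_one _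
    calc E * wlg X (fun _ => 1) ≤ (1 / 2) ^ t / 2 * (2 * X.L) := by
          refine mul_le_mul hE1 (by linarith) (wlg_nonneg fun _ _ => zero_le_one) (by positivity)
      _ = (1 / 2) ^ t * X.L := by ring
  have hsum : ∑ i ∈ range K, (wlg X (h i) - 3 * (9 * W) * hs (2 ^ L)) =
      ∑ i ∈ range K, wlg X (h i) - K * (3 * (9 * W) * hs (2 ^ L)) := by
    rw [Finset.sum_sub_distrib, Finset.sum_const, Finset.card_range, nsmul_eq_mul]
  rw [hsum] at hleft
  have hk0 : (0 : ℝ) ≤ k₁ := Nat.cast_nonneg _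
  have hf1 : K * (3 * (9 * W) * hs (2 ^ L)) ≤ 54 * W * (K * (k₁ + 1)) := by
    have h3 : hs (2 ^ L) ≤ 2 * (k₁ + 1) := by linarith
    calc K * (3 * (9 * W) * hs (2 ^ L)) ≤ K * (3 * (9 * W) * (2 * (k₁ + 1))) := by
          refine mul_le_mul_of_nonneg_left ?_ (by positivity)
          exact mul_le_mul_of_nonneg_left h3 (by positivity)
      _ = 54 * W * (K * (k₁ + 1)) := by ring
  have hf2 : 6 * hs (2 ^ L) ≤ 12 * (K * (k₁ + 1)) := by
    have h3 : (k₁ : ℝ) + 1 ≤ K * (k₁ + 1) := by nlinarith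
    linarith
  have hf3 : 0 ≤ W * (e * X.L) := by positivity
  have hf4 : (0 : ℝ) ≤ K * (k₁ + 1) := by positivity
  have hgoal : ∑ i ∈ range K, wlg X (h i) ≤
      54 * W * (K * (k₁ + 1)) + 2 * (e * X.L) + 12 * (K * (k₁ + 1)) +
        (1 / 2) ^ (s / 2400) * X.L := by linarith
  have hfin : ((54 * W + 14) * e + (1 / 2) ^ (s / 2400)) * X.L +
      (54 * W + 14) * K * (k₁ + 1) =
      54 * (W * (e * X.L)) + 14 * (e * X.L) + 54 * W * (K * (k₁ + 1)) +
        14 * (K * (k₁ + 1)) + (1 / 2) ^ (s / 2400) * X.L := by ring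
  rw [hfin]
  linarith

theorem sw_GEN (h1 : Pool.Agent.H3.BES.T_ONE) (h2 : Pool.Agent.H3.BES.T_MSU) : W_GENB := main h1 h2

end Pool.Agent.H36.NW.GENB
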